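import Pool.Agent.W626.FR.Stms

/-! FR-GROW1: lower tail of the pressure -/

set_option autoImplicit false

namespace Pool.Agent.W803.FR

open MeasureTheory ProbabilityTheory Filter FrogGW FrogRec
open scoped ENNReal NNReal Classical Topology

theorem pr_eq (ν : Measure ℝ≥0) (h : IsProbabilityMeasure ν) : pr ν = ν := by
  unfold pr
  rw [if_pos h]

theorem WW_eval (ν : ℕ → Measure ℝ≥0) (k : ℕ) :
    MeasurePreserving (fun w : ℕ → ℝ × ℝ≥0 => w k) (WW ν) (unif.prod (pr (ν k))) :=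
  measurePreserving_eval_infinitePi (fun k => unif.prod (pr (ν k))) k

theorem WW_fst (ν : ℕ → Measure ℝ≥0) (k : ℕ) {h : ℝ → ℝ≥0∞} (hh : Measurable h) :
    ∫⁻ w, h (w k).1 ∂(WW ν) = ∫⁻ x, h x ∂unif := by
  have h1 : MeasurePreserving (Prod.fst : ℝ × ℝ≥0 → ℝ) (unif.prod (pr (ν k))) unif :=
    measurePreserving_fst
  exact (h1.comp (WW_eval ν k)).lintegral_comp hh

theorem WW_snd (ν : ℕ → Measure ℝ≥0) (k : ℕ) {h : ℝ≥0 → ℝ≥0∞} (hh : Measurable h) :
    ∫⁻ w, h (w k).2 ∂(WW ν) = ∫⁻ x, h x ∂(pr (ν k)) := by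
  have h1 : MeasurePreserving (Prod.snd : ℝ × ℝ≥0 → ℝ≥0) (unif.prod (pr (ν k))) (pr (ν k)) :=
    measurePreserving_snd
  exact (h1.comp (WW_eval ν k)).lintegral_comp hh

theorem WW_snd_ae (ν : ℕ → Measure ℝ≥0) (hν : ∀ k, IsProbabilityMeasure (ν k)) (k : ℕ) (m : ℝ≥0)
    (h : ν k {lam | lam < m} = 0) : ∀ᵐ w ∂(WW ν), m ≤ (w k).2 := by
  have h1 : MeasurePreserving (Prod.snd : ℝ × ℝ≥0 → ℝ≥0) (unif.prod (pr (ν k))) (pr (ν k)) :=
    measurePreserving_snd
  have h2 := (h1.comp (WW_eval ν k)).quasiMeasurePreserving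
  have h3 : ∀ᵐ lam ∂(pr (ν k)), m ≤ lam := by
    rw [pr_eq _ (hν k), ae_iff]
    simpa using h
  exact h2.ae h3

theorem WW_prod (ν : ℕ → Measure ℝ≥0) (G : Finset ℕ) {F : ℕ → ℝ → ℝ≥0∞}
    (hF : ∀ k, Measurable (F k)) :
    ∫⁻ w, ∏ k ∈ G, F k (w k).1 ∂(WW ν) = ∏ k ∈ G, ∫⁻ x, F k x ∂unif := by
  have h1 : iIndepFun (fun k (w : ℕ → ℝ × ℝ≥0) => F k (w k).1) (WW ν) :=
    iIndepFun_infinitePi (P := fun k => unif.prod (pr (ν k))) (X := fun k q => F k q.1)
      (fun k => (hF k).comp measurable_fst)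
  rw [lintegral_prod_eq_prod_lintegral_of_indepFun G _ h1
    (fun k => (hF k).comp (measurable_fst.comp (measurable_pi_apply k)))]
  exact Finset.prod_congr rfl fun k _ => WW_fst ν k (hF k)

theorem unif_Iic {p : ℝ} (h0 : 0 ≤ p) (h1 : p < 1) : unif (Set.Iic p) = ENNReal.ofReal p := by
  unfold unif
  rw [Measure.restrict_apply measurableSet_Iic]
  have : Set.Iic p ∩ Set.Ico 0 1 = Set.Icc 0 p := by
    ext x
    simp only [Set.mem_inter_iff, Set.mem_Iic, Set.mem_Ico, Set.mem_Icc]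
    constructor
    · rintro ⟨h2, h3, _⟩
      exact ⟨h3, h2⟩
    · rintro ⟨h2, h3⟩
      exact ⟨h3, h2, by linarith⟩
  rw [this, Real.volume_Icc, sub_zero]

theorem unif_Ioi {p : ℝ} (h0 : 0 ≤ p) : unif (Set.Ioi p) = ENNReal.ofReal (1 - p) := by
  unfold unif
  rw [Measure.restrict_apply measurableSet_Ioi]
  have : Set.Ioi p ∩ Set.Ico 0 1 = Set.Ioo p 1 := by
    ext x
    simp only [Set.mem_inter_iff, Set.mem_Ioi, Set.mem_Ico, Set.mem_Ioo]
    constructor
    · rintro ⟨h2, _, h3⟩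
      exact ⟨h2, h3⟩
    · rintro ⟨h2, h3⟩
      exact ⟨h2, by linarith, h3⟩
  rw [this, Real.volume_Ioo]

theorem exp_bd {x : ℝ} (h0 : 0 ≤ x) (h1 : x ≤ 1) :
    Real.exp (-x) ≤ 1 - (1 - Real.exp (-1)) * x := by
  have h := convexOn_exp.2 (Set.mem_univ (0 : ℝ)) (Set.mem_univ (-1 : ℝ))
    (by linarith : 0 ≤ 1 - x) h0 (by ring)
  simp only [smul_eq_mul, mul_zero, mul_neg, mul_one, zero_add, Real.exp_zero] at h
  linarith

/-- one factor of the exponential moment -/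
theorem factor {α t : ℝ} (h0 : 0 ≤ α * t) (h1 : α * t ≤ 1) {κ : ℝ} (hκ : α ≤ κ) (ht : 0 ≤ t) :
    ∫⁻ x, (if x ≤ 1 - Real.exp (-(κ * t)) then ENNReal.ofReal (Real.exp (-1)) else 1) ∂unif ≤
      ENNReal.ofReal (Real.exp (-(3 / 8 * (α * t)))) := by
  set p := 1 - Real.exp (-(κ * t)) with hp
  have hκt : α * t ≤ κ * t := mul_le_mul_of_nonneg_right hκ ht
  have hp0 : 0 ≤ p := by
    have : Real.exp (-(κ * t)) ≤ 1 := Real.exp_le_one_iff.2 (by linarith)
    linarith
  have hp1 : p < 1 := by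
    have := Real.exp_pos (-(κ * t))
    linarith
  have e1 : Real.exp (-1) ≤ 0.368 := by
    rw [Real.exp_neg]
    have := Real.exp_one_gt_d9
    rw [inv_le_comm₀ (Real.exp_pos 1) (by norm_num)]
    norm_num at this ⊢
    linarith
  have hp2 : (1 - Real.exp (-1)) * (α * t) ≤ p := by
    have h2 := exp_bd h0 h1
    have h3 : Real.exp (-(κ * t)) ≤ Real.exp (-(α * t)) := Real.exp_le_exp.2 (by linarith)
    linarith
  have hint : ∫⁻ x, (if x ≤ p then ENNReal.ofReal (Real.exp (-1)) else 1) ∂unif =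
      ENNReal.ofReal (Real.exp (-1)) * ENNReal.ofReal p + ENNReal.ofReal (1 - p) := by
    have h2 : ∀ x : ℝ, (if x ≤ p then ENNReal.ofReal (Real.exp (-1)) else 1) =
        (Set.Iic p).indicator (fun _ => ENNReal.ofReal (Real.exp (-1))) x +
        (Set.Ioi p).indicator (fun _ => 1) x := by
      intro x
      by_cases hx : x ≤ p
      · rw [if_pos hx, Set.indicator_of_mem (Set.mem_Iic.2 hx),
          Set.indicator_of_notMem (by simpa using hx), add_zero]
      · rw [if_neg hx, Set.indicator_of_notMem (by simpa using hx),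
          Set.indicator_of_mem (by simpa using hx), zero_add]
    simp_rw [h2]
    rw [lintegral_add_left (measurable_const.indicator measurableSet_Iic),
      lintegral_indicator_const measurableSet_Iic, lintegral_indicator_const measurableSet_Ioi,
      unif_Iic hp0 hp1, unif_Ioi hp0, one_mul]
  rw [hint, ← ENNReal.ofReal_mul (Real.exp_pos _).le, ← ENNReal.ofReal_add
    (mul_nonneg (Real.exp_pos _).le hp0) (by linarith)]
  apply ENNReal.ofReal_le_ofReal
  have h4 : Real.exp (-1) * p + (1 - p) = -((1 - Real.exp (-1)) * p) + 1 := by ring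
  rw [h4]
  refine (Real.add_one_le_exp _).trans (Real.exp_le_exp.2 ?_)
  have h5 : 0 ≤ 1 - Real.exp (-1) := by linarith
  have h6 : (1 - Real.exp (-1)) * ((1 - Real.exp (-1)) * (α * t)) ≤ (1 - Real.exp (-1)) * p :=
    mul_le_mul_of_nonneg_left hp2 h5
  have h7 : (3 / 8 : ℝ) ≤ (1 - Real.exp (-1)) * (1 - Real.exp (-1)) := by nlinarith
  nlinarith

/-- number of entered children in `G` at time `t` -/
noncomputable def NN (κ : ℕ → ℝ≥0) (G : Finset ℕ) (t : ℝ) (w : ℕ → ℝ × ℝ≥0) : ℕ :=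
  (G.filter fun k => (w k).1 ≤ 1 - Real.exp (-((κ k : ℝ) * t))).card

theorem chernoff (ν : ℕ → Measure ℝ≥0) (κ : ℕ → ℝ≥0) (G : Finset ℕ) {α t v : ℝ}
    (h0 : 0 ≤ α * t) (h1 : α * t ≤ 1) (ht : 0 ≤ t) (hκ : ∀ k ∈ G, α ≤ κ k) :
    WW ν {w | (NN κ G t w : ℝ) ≤ v} ≤
      ENNReal.ofReal (Real.exp (v - 3 / 8 * (α * t) * G.card)) := by
  set F : ℕ → ℝ → ℝ≥0∞ := fun k x =>
    if x ≤ 1 - Real.exp (-((κ k : ℝ) * t)) then ENNReal.ofReal (Real.exp (-1)) else 1 with hF
  have hFm : ∀ k, Measurable (F k) := fun k =>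
    Measurable.ite measurableSet_Iic measurable_const measurable_const
  have hfm : Measurable (fun w : ℕ → ℝ × ℝ≥0 => ∏ k ∈ G, F k (w k).1) :=
    Finset.measurable_prod _ fun k _ =>
      (hFm k).comp (measurable_fst.comp (measurable_pi_apply k))
  have hval : ∀ w : ℕ → ℝ × ℝ≥0, ∏ k ∈ G, F k (w k).1 =
      ENNReal.ofReal (Real.exp (-(NN κ G t w : ℝ))) := by
    intro w
    rw [hF, Finset.prod_ite, Finset.prod_const, Finset.prod_const_one, mul_one]
    rw [← ENNReal.ofReal_pow (Real.exp_pos _).le, ← Real.exp_nat_mul]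
    unfold NN
    congr 2
    ring
  have hsub : {w | (NN κ G t w : ℝ) ≤ v} ⊆
      {w | ENNReal.ofReal (Real.exp (-v)) ≤ ∏ k ∈ G, F k (w k).1} := by
    intro w hw
    show ENNReal.ofReal (Real.exp (-v)) ≤ ∏ k ∈ G, F k (w k).1
    rw [hval]
    exact ENNReal.ofReal_le_ofReal (Real.exp_le_exp.2 (neg_le_neg hw))
  have hmk : ENNReal.ofReal (Real.exp (-v)) * WW ν {w | (NN κ G t w : ℝ) ≤ v} ≤
      ENNReal.ofReal (Real.exp (-(3 / 8 * (α * t) * G.card))) := by
    calc ENNReal.ofReal (Real.exp (-v)) * WW ν {w | (NN κ G t w : ℝ) ≤ v}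
        ≤ ENNReal.ofReal (Real.exp (-v)) *
          WW ν {w | ENNReal.ofReal (Real.exp (-v)) ≤ ∏ k ∈ G, F k (w k).1} := by
          gcongr
      _ ≤ ∫⁻ w, ∏ k ∈ G, F k (w k).1 ∂(WW ν) := mul_meas_ge_le_lintegral hfm _
      _ = ∏ k ∈ G, ∫⁻ x, F k x ∂unif := WW_prod ν G hFm
      _ ≤ ∏ _k ∈ G, ENNReal.ofReal (Real.exp (-(3 / 8 * (α * t)))) :=
          Finset.prod_le_prod' fun k hk => factor h0 h1 (hκ k hk) ht
      _ = _ := by
          rw [Finset.prod_const, ← ENNReal.ofReal_pow (Real.exp_pos _).le, ← Real.exp_nat_mul]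
          congr 2
          ring
  calc WW ν {w | (NN κ G t w : ℝ) ≤ v}
      = ENNReal.ofReal (Real.exp v) * (ENNReal.ofReal (Real.exp (-v)) *
        WW ν {w | (NN κ G t w : ℝ) ≤ v}) := by
        rw [← mul_assoc, ← ENNReal.ofReal_mul (Real.exp_pos _).le, ← Real.exp_add,
          add_neg_cancel, Real.exp_zero, ENNReal.ofReal_one, one_mul]
    _ ≤ ENNReal.ofReal (Real.exp v) *
        ENNReal.ofReal (Real.exp (-(3 / 8 * (α * t) * G.card))) := by gcongr
    _ = _ := by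
        rw [← ENNReal.ofReal_mul (Real.exp_pos _).le, ← Real.exp_add]
        congr 2

/-- lower bound of the number of entered children by the pressure equation -/
theorem NN_le (hB : TaskSelB) (a c m : ℝ≥0) (κ : ℕ → ℝ≥0) (s G : Finset ℕ) (hc : 0 < c)
    (hGs : G ⊆ s) (w : ℕ → ℝ × ℝ≥0) (hw : ∀ k ∈ G, m ≤ (w k).2) {t : ℝ} (ht : 0 ≤ t)
    (htS : t ≤ (Sel a c κ s w : ℝ)) :
    (m : ℝ) * NN κ G t w ≤ c * (Sel a c κ s w : ℝ) := by
  obtain ⟨heq, -, -⟩ := hB a c κ s w hc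
  have h1 : ((∑ k ∈ s, (if (w k).1 ≤ 1 - Real.exp (-((κ k : ℝ) * (Sel a c κ s w : ℝ)))
      then (w k).2 else 0) : ℝ≥0) : ℝ) ≤ c * (Sel a c κ s w : ℝ) := by
    have : (∑ k ∈ s, (if (w k).1 ≤ 1 - Real.exp (-((κ k : ℝ) * (Sel a c κ s w : ℝ)))
      then (w k).2 else 0) : ℝ≥0) ≤ c * Sel a c κ s w := by
      rw [← heq]
      exact le_add_self
    exact_mod_cast this
  refine le_trans ?_ h1
  have h2 : (m : ℝ) * NN κ G t w = ((∑ k ∈ G, (if (w k).1 ≤ 1 - Real.exp (-((κ k : ℝ) * t))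
      then m else 0) : ℝ≥0) : ℝ) := by
    unfold NN
    rw [Finset.card_filter, Nat.cast_sum, Finset.mul_sum, NNReal.coe_sum]
    refine Finset.sum_congr rfl fun k _ => ?_
    split_ifs <;> simp
  rw [h2]
  refine NNReal.coe_le_coe.2 ?_
  refine (Finset.sum_le_sum fun k hk => ?_).trans (Finset.sum_le_sum_of_subset hGs)
  split_ifs with h3 h4 h4
  · exact hw k hk
  · exfalso
    apply h4
    refine h3.trans ?_
    have : Real.exp (-((κ k : ℝ) * (Sel a c κ s w : ℝ))) ≤ Real.exp (-((κ k : ℝ) * t)) := by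
      apply Real.exp_le_exp.2
      have h5 : (κ k : ℝ) * t ≤ (κ k : ℝ) * (Sel a c κ s w : ℝ) :=
        mul_le_mul_of_nonneg_left htS (κ k).2
      linarith
    linarith
  · exact bot_le
  · exact le_refl _

theorem grow1 (hB : TaskSelB) : TaskGrow1 := by
  intro α B m a c κ ν s G hα hα1 hB1 hm hc hGs hν hG hcB
  have hc1 : (1 : ℝ) ≤ c := by exact_mod_cast hc
  have hc0 : (0 : ℝ) < c := by linarith
  have hc0' : (0 : ℝ≥0) < c := by exact_mod_cast hc0
  have hB0 : 0 < B := by linarith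
  have hm' : 0 < (m : ℝ) := lt_of_lt_of_le (by positivity) hm
  by_cases hy : Real.log 2 ≤ α * a / (4 * B)
  swap
  · have h1 : 1 ≤ 2 * Real.exp (-(α * a / (4 * B))) := by
      have h2 : Real.exp (α * a / (4 * B)) < 2 := by
        rw [← Real.lt_log_iff_exp_lt (by norm_num)]
        exact not_le.1 hy
      rw [Real.exp_neg]
      have h3 := Real.exp_pos (α * a / (4 * B))
      rw [← div_eq_mul_inv, le_div_iff₀ h3]
      linarith
    refine prob_le_one.trans ?_
    rw [← ENNReal.ofReal_one]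
    exact ENNReal.ofReal_le_ofReal h1
  set y := α * a / (4 * B) with hyd
  have hy0 : 0 < y := lt_of_lt_of_le (Real.log_pos (by norm_num)) hy
  have ha : (0 : ℝ) < a := by
    rcases (NNReal.coe_nonneg a).eq_or_lt with h | h
    · rw [hyd, ← h] at hy0
      simp at hy0
    · exact h
  have hey : Real.exp (-y) ≤ 1 / 2 := by
    rw [Real.exp_neg, inv_le_comm₀ (Real.exp_pos y) (by norm_num)]
    have := Real.exp_le_exp.2 hy
    rw [Real.exp_log (by norm_num)] at this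
    norm_num
    exact this
  set tl : ℕ → ℝ := fun l => 2 ^ l * a / c with htl
  have htl0 : ∀ l, 0 < tl l := fun l => by
    rw [htl]
    positivity
  set Bl : ℕ → Set (ℕ → ℝ × ℝ≥0) := fun l =>
    {w | tl l < 1 / α ∧ (m : ℝ) * NN κ G (tl l) w ≤ 2 * c * tl l} with hBl
  have hae : ∀ᵐ w ∂(WW ν), ∀ k ∈ G, m ≤ (w k).2 := by
    rw [Filter.eventually_all_finset]
    exact fun k hk => WW_snd_ae ν hν k m (hG k hk).2
  have hincl : ∀ᵐ w ∂(WW ν), w ∈ {w | (Sel a c κ s w : ℝ) < 1 / α} → w ∈ ⋃ l, Bl l := by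
    filter_upwards [hae] with w hw hS
    have hS' : (Sel a c κ s w : ℝ) < 1 / α := hS
    obtain ⟨-, -, hlow⟩ := hB a c κ s w hc0'
    have hlow' : (a : ℝ) / c ≤ (Sel a c κ s w : ℝ) := by exact_mod_cast hlow
    have hx : 1 ≤ (Sel a c κ s w : ℝ) * c / a := by
      rw [le_div_iff₀ ha, one_mul]
      rwa [div_le_iff₀ hc0] at hlow'
    obtain ⟨l, hl1, hl2⟩ := exists_nat_pow_near hx (by norm_num : (1 : ℝ) < 2)
    have h1 : tl l ≤ (Sel a c κ s w : ℝ) := by
      rw [htl]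
      rw [le_div_iff₀ ha] at hl1
      rw [div_le_iff₀ hc0]
      exact hl1
    have h2 : (Sel a c κ s w : ℝ) ≤ 2 * tl l := by
      rw [htl]
      rw [div_lt_iff₀ ha, pow_succ] at hl2
      have h3 : 2 * (2 ^ l * (a : ℝ) / c) = 2 ^ l * 2 * a / c := by ring
      show _ ≤ 2 * (2 ^ l * (a : ℝ) / c)
      rw [h3, le_div_iff₀ hc0]
      exact hl2.le
    refine Set.mem_iUnion.2 ⟨l, lt_of_le_of_lt h1 hS', ?_⟩
    have h4 := NN_le hB a c m κ s G hc0' hGs w hw (htl0 l).le h1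
    refine h4.trans ?_
    nlinarith
  have hbl : ∀ l, WW ν (Bl l) ≤ ENNReal.ofReal (Real.exp (-y) ^ (l + 1)) := by
    intro l
    by_cases hl : tl l < 1 / α
    · have hαt : α * tl l ≤ 1 := by
        rw [lt_div_iff₀ hα] at hl
        linarith
      have hαt0 : 0 ≤ α * tl l := mul_nonneg hα.le (htl0 l).le
      have h1 := chernoff ν κ G (v := 2 * c * tl l / m) hαt0 hαt (htl0 l).le
        (fun k hk => (hG k hk).1)
      have h2 : Bl l ⊆ {w | (NN κ G (tl l) w : ℝ) ≤ 2 * c * tl l / m} := by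
        rintro w ⟨_, hw⟩
        show (NN κ G (tl l) w : ℝ) ≤ 2 * c * tl l / m
        rw [le_div_iff₀ hm']
        linarith
      refine (measure_mono h2).trans (h1.trans (ENNReal.ofReal_le_ofReal ?_))
      rw [← Real.exp_nat_mul]
      apply Real.exp_le_exp.2
      have hg : (c : ℝ) * tl l ≤ B * G.card * tl l := mul_le_mul_of_nonneg_right hcB (htl0 l).le
      have h3 : 2 * c * tl l / m ≤ α * (c * tl l) / (8 * B) := by
        rw [div_le_div_iff₀ hm' (by positivity)]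
        have h5 : 16 * B ≤ α * m := by
          rw [div_le_iff₀ hα] at hm
          linarith
        have h6 : 0 ≤ (c : ℝ) * tl l := mul_nonneg hc0.le (htl0 l).le
        nlinarith
      have h4 : α * (c * tl l) / B ≤ α * tl l * G.card := by
        rw [div_le_iff₀ hB0]
        nlinarith
      have h7 : α * (c * tl l) / (4 * B) = 2 ^ l * y := by
        rw [htl, hyd]
        field_simp
      have h8 : ((l + 1 : ℕ) : ℝ) ≤ 2 ^ l := by
        exact_mod_cast Nat.succ_le_of_lt Nat.lt_two_pow_self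
      have h9 : α * (c * tl l) / (8 * B) = (α * (c * tl l) / B) / 8 := by
        field_simp
      have h10 : α * (c * tl l) / (4 * B) = (α * (c * tl l) / B) / 4 := by
        field_simp
      have h11 : ((l + 1 : ℕ) : ℝ) * y ≤ 2 ^ l * y := mul_le_mul_of_nonneg_right h8 hy0.le
      have h12 : 3 / 8 * (α * tl l) * G.card = 3 / 8 * (α * tl l * G.card) := by ring
      rw [h12]
      have h13 : ((l + 1 : ℕ) : ℝ) * -y = -(((l + 1 : ℕ) : ℝ) * y) := by ring
      rw [h13]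
      linarith
    · have h1 : Bl l = ∅ := by
        ext w
        simp only [hBl, Set.mem_empty_iff_false, iff_false]
        exact fun h => hl h.1
      rw [h1, measure_empty]
      exact bot_le
  have hr0 : 0 ≤ Real.exp (-y) := (Real.exp_pos _).le
  have hr1 : Real.exp (-y) < 1 := by linarith
  calc WW ν {w | (Sel a c κ s w : ℝ) < 1 / α} ≤ WW ν (⋃ l, Bl l) := measure_mono_ae hincl
    _ ≤ ∑' l, WW ν (Bl l) := measure_iUnion_le _
    _ ≤ ∑' l : ℕ, ENNReal.ofReal (Real.exp (-y) ^ (l + 1)) := ENNReal.tsum_le_tsum hbl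
    _ = ENNReal.ofReal (∑' l : ℕ, Real.exp (-y) ^ (l + 1)) := by
        rw [ENNReal.ofReal_tsum_of_nonneg (fun l => by positivity)]
        simp_rw [pow_succ]
        exact (summable_geometric_of_lt_one hr0 hr1).mul_right _
    _ ≤ ENNReal.ofReal (2 * Real.exp (-y)) := by
        apply ENNReal.ofReal_le_ofReal
        simp_rw [pow_succ]
        rw [tsum_mul_right, tsum_geometric_of_lt_one hr0 hr1]
        have h1 : (1 - Real.exp (-y))⁻¹ ≤ 2 := by
          rw [inv_le_comm₀ (by linarith) (by norm_num)]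
          linarith
        exact mul_le_mul_of_nonneg_right h1 hr0

end Pool.Agent.W803.FR
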